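import Mathlib

/-!
# Matching points off a hyperplane with hyperplanes off a point in modular lattices
-/

set_option autoImplicit false
set_option linter.unusedSectionVars false

namespace Pool.Agent.Helper72.MB

open Finset

/-- Elements are separated by atoms. -/
def Sep (L : Type) [Lattice L] [BoundedOrder L] : Prop :=
  ∀ x y : L, ¬ y ≤ x → ∃ a, IsAtom a ∧ a ≤ y ∧ ¬ a ≤ x

section basic

variable {L : Type} [Lattice L] [BoundedOrder L] [IsModularLattice L]

theorem cov_atom {x a : L} (ha : IsAtom a) (h : ¬ a ≤ x) : x ⋖ x ⊔ a := by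
  apply covBy_sup_of_inf_covBy_right
  have h1 : x ⊓ a = ⊥ := by
    rcases ha.le_iff.1 (inf_le_right : x ⊓ a ≤ a) with h2 | h2
    · exact h2
    · exact absurd (h2 ▸ inf_le_left) h
  rw [h1]
  exact bot_covBy_iff.2 ha

theorem sep_dual [Finite L] (hs : Sep L) : Sep Lᵒᵈ := by
  intro x' y' h'
  obtain ⟨x, rfl⟩ := OrderDual.toDual.surjective x'
  obtain ⟨y, rfl⟩ := OrderDual.toDual.surjective y'
  have h : ¬ x ≤ y := h'
  have hfin : ({c : L | y ≤ c ∧ ¬ x ≤ c}).Finite := Set.toFinite _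
  obtain ⟨c, hc⟩ := hfin.exists_maximal ⟨y, le_rfl, h⟩
  have hc1 : y ≤ c ∧ ¬ x ≤ c := hc.1
  have hgt : ∀ d, c < d → x ≤ d := by
    intro d hd
    by_contra hx
    exact absurd (hc.2 (⟨hc1.1.trans hd.le, hx⟩ : d ∈ {c : L | y ≤ c ∧ ¬ x ≤ c}) hd.le)
      (not_le_of_gt hd)
  have hd0 : c < c ⊔ x := lt_of_le_of_ne le_sup_left
    (fun he => hc1.2 (he ▸ le_sup_right))
  have htop : c ⊔ x = ⊤ := by
    by_contra hne
    obtain ⟨a, ha, -, hax⟩ := hs (c ⊔ x) ⊤ (fun hle => hne (top_le_iff.1 hle))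
    have h1 : ¬ a ≤ c := fun h => hax (h.trans le_sup_left)
    have h2 := cov_atom ha h1
    have h3 : c ⊔ x ≤ c ⊔ a := sup_le le_sup_left (hgt _ h2.lt)
    have h4 : c ⊔ x = c ⊔ a := by
      rcases h2.eq_or_eq le_sup_left h3 with h5 | h5
      · exact absurd h5 hd0.ne'
      · exact h5
    exact hax (h4 ▸ le_sup_right)
  refine ⟨OrderDual.toDual c, ?_, hc1.1, hc1.2⟩
  rw [isAtom_dual_iff_isCoatom]
  refine ⟨fun he => hc1.2 (by
    have : c = ⊤ := he
    rw [this]; exact le_top), fun d hd => ?_⟩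
  have h1 : c < d := hd
  rw [eq_top_iff, ← htop]
  exact sup_le h1.le (hgt d h1)

end basic

/-- the data of one step -/
structure Conf {L : Type} [Lattice L] (lo hi K M W V : L) : Prop where
  kv1 : K ⊓ V = lo
  kv2 : K ⊔ V = hi
  mw1 : M ⊓ W = lo
  mw2 : M ⊔ W = hi
  km : K ⋖ M
  wv : W ⋖ V

/-- points of `M` off `K` -/
def dset {L : Type} [Lattice L] (lo K M : L) : Set L := {D | lo ⋖ D ∧ D ≤ M ∧ ¬ D ≤ K}

/-- hyperplanes over `W` but not over `V` -/
def hset {L : Type} [Lattice L] (hi W V : L) : Set L := {H | H ⋖ hi ∧ W ≤ H ∧ ¬ V ≤ H}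

theorem Conf.dual {L : Type} [Lattice L] {lo hi K M W V : L} (h : Conf lo hi K M W V) :
    Conf (L := Lᵒᵈ) (OrderDual.toDual hi) (OrderDual.toDual lo) (OrderDual.toDual V)
      (OrderDual.toDual W) (OrderDual.toDual M) (OrderDual.toDual K) where
  kv1 := by
    change OrderDual.toDual (V ⊔ K) = _
    rw [sup_comm, h.kv2]
  kv2 := by
    change OrderDual.toDual (V ⊓ K) = _
    rw [inf_comm, h.kv1]
  mw1 := by
    change OrderDual.toDual (W ⊔ M) = _
    rw [sup_comm, h.mw2]
  mw2 := by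
    change OrderDual.toDual (W ⊓ M) = _
    rw [inf_comm, h.mw1]
  km := h.wv.toDual
  wv := h.km.toDual

section conf

variable {L : Type} [Lattice L] [IsModularLattice L] {lo hi K M W V : L}

theorem Conf.lo_le_K (h : Conf lo hi K M W V) : lo ≤ K := h.kv1 ▸ inf_le_left
theorem Conf.lo_le_V (h : Conf lo hi K M W V) : lo ≤ V := h.kv1 ▸ inf_le_right
theorem Conf.lo_le_M (h : Conf lo hi K M W V) : lo ≤ M := h.mw1 ▸ inf_le_left
theorem Conf.lo_le_W (h : Conf lo hi K M W V) : lo ≤ W := h.mw1 ▸ inf_le_right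
theorem Conf.K_le_hi (h : Conf lo hi K M W V) : K ≤ hi := h.kv2 ▸ le_sup_left
theorem Conf.V_le_hi (h : Conf lo hi K M W V) : V ≤ hi := h.kv2 ▸ le_sup_right
theorem Conf.M_le_hi (h : Conf lo hi K M W V) : M ≤ hi := h.mw2 ▸ le_sup_left
theorem Conf.W_le_hi (h : Conf lo hi K M W V) : W ≤ hi := h.mw2 ▸ le_sup_right

theorem Conf.inf_M (h : Conf lo hi K M W V) {G : L} (h1 : lo ≤ G) (h2 : G ≤ M) :
    (G ⊔ W) ⊓ M = G := by
  rw [sup_inf_assoc_of_le W h2, inf_comm, h.mw1, sup_eq_left.2 h1]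

theorem Conf.cov_hi (h : Conf lo hi K M W V) {G : L} (h1 : lo ≤ G) (h2 : G ⋖ M) :
    G ⊔ W ⋖ hi := by
  have h3 : M ⊓ (G ⊔ W) ⋖ M := by rw [inf_comm, h.inf_M h1 h2.le]; exact h2
  have h4 := covBy_sup_of_inf_covBy_left h3
  have h5 : M ⊔ (G ⊔ W) = hi := by
    rw [← sup_assoc, sup_eq_left.2 h2.le, h.mw2]
  rwa [h5] at h4

theorem Conf.not_e_le_K (h : Conf lo hi K M W V) : ¬ V ⊓ M ≤ K := by
  intro hle
  have h1 : V ⊓ M ≤ lo := by
    rw [← h.kv1]
    exact le_inf hle inf_le_left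
  have h2 : V ⊓ M ⊔ W = V := by
    rw [inf_sup_assoc_of_le M h.wv.le, h.mw2]
    exact inf_eq_left.2 h.V_le_hi
  have h3 : V ≤ W := by
    rw [← h2]
    exact sup_le (h1.trans h.lo_le_W) le_rfl
  exact h.wv.lt.not_ge h3

theorem Conf.mem_hset (h : Conf lo hi K M W V) {G : L} (h1 : lo ≤ G) (h2 : G ⋖ M)
    (h3 : ¬ V ⊓ M ≤ G) : G ⊔ W ∈ hset hi W V := by
  refine ⟨h.cov_hi h1 h2, le_sup_right, fun hle => h3 ?_⟩
  calc V ⊓ M ≤ (G ⊔ W) ⊓ M := inf_le_inf_right _ hle
    _ = G := h.inf_M h1 h2.le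

theorem Conf.le_iff (h : Conf lo hi K M W V) {G D : L} (h1 : lo ≤ G) (h2 : G ≤ M) (hD : D ≤ M) :
    D ≤ G ⊔ W ↔ D ≤ G := by
  constructor
  · intro hle
    calc D ≤ (G ⊔ W) ⊓ M := le_inf hle hD
      _ = G := h.inf_M h1 h2
  · intro hle
    exact hle.trans le_sup_left

variable [Fintype L]

open Classical in
/-- sum of a function over the points below an element -/
noncomputable def sm (lo K M : L) (x : L → ℚ) (X : L) : ℚ :=
  ∑ D ∈ univ.filter (fun D => D ∈ dset lo K M ∧ D ≤ X), x D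

open Classical in
theorem sm_sub (x : L → ℚ) {X Y : L} (hXY : X ≤ Y) :
    sm lo K M x Y - sm lo K M x X =
      ∑ D ∈ univ.filter (fun D => (D ∈ dset lo K M ∧ ¬ D ≤ X) ∧ D ≤ Y), x D := by
  have h1 : univ.filter (fun D => D ∈ dset lo K M ∧ D ≤ Y) =
      univ.filter (fun D => D ∈ dset lo K M ∧ D ≤ X) ∪
      univ.filter (fun D => (D ∈ dset lo K M ∧ ¬ D ≤ X) ∧ D ≤ Y) := by
    ext D
    simp only [mem_union, mem_filter, mem_univ, true_and]
    constructor
    · rintro ⟨h2, h3⟩
      by_cases h4 : D ≤ X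
      · exact Or.inl ⟨h2, h4⟩
      · exact Or.inr ⟨⟨h2, h4⟩, h3⟩
    · rintro (⟨h2, h3⟩ | ⟨⟨h2, -⟩, h3⟩)
      · exact ⟨h2, h3.trans hXY⟩
      · exact ⟨h2, h3⟩
  have h2 : Disjoint (univ.filter (fun D => D ∈ dset lo K M ∧ D ≤ X))
      (univ.filter (fun D => (D ∈ dset lo K M ∧ ¬ D ≤ X) ∧ D ≤ Y)) := by
    rw [disjoint_left]
    intro D hD hD'
    simp only [mem_filter, mem_univ, true_and] at hD hD'
    exact hD'.1.2 hD.2
  unfold sm
  rw [h1, sum_union h2]
  ring

open Classical in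
theorem cov_sum (x : L → ℚ) {X : L} (hX : lo ≤ X) (hXM : X ≤ M) :
    sm lo K M x M - sm lo K M x X =
      ∑ Y ∈ univ.filter (fun Y => X ⋖ Y ∧ Y ≤ M), (sm lo K M x Y - sm lo K M x X) := by
  have h1 : ∀ Y ∈ univ.filter (fun Y => X ⋖ Y ∧ Y ≤ M), sm lo K M x Y - sm lo K M x X =
      ∑ D ∈ (univ.filter (fun D => (D ∈ dset lo K M ∧ ¬ D ≤ X) ∧ D ≤ M)).filter
        (fun D => D ⊔ X = Y), x D := by
    intro Y hY
    simp only [mem_filter, mem_univ, true_and] at hY
    rw [sm_sub x hY.1.le]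
    apply sum_congr _ (fun _ _ => rfl)
    ext D
    simp only [mem_filter, mem_univ, true_and]
    constructor
    · rintro ⟨h2, h3⟩
      refine ⟨⟨h2, h2.1.2.1⟩, ?_⟩
      rcases hY.1.eq_or_eq (le_sup_right : X ≤ D ⊔ X) (sup_le h3 hY.1.le) with h4 | h4
      · exact absurd (h4 ▸ le_sup_left) h2.2
      · exact h4
    · rintro ⟨⟨h2, -⟩, h3⟩
      exact ⟨h2, h3 ▸ le_sup_left⟩
  rw [sum_congr rfl h1, sm_sub x hXM]
  symm
  apply sum_fiberwise_of_maps_to (g := fun D => D ⊔ X)
  intro D hD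
  simp only [mem_filter, mem_univ, true_and] at hD ⊢
  refine ⟨?_, sup_le hD.2 hXM⟩
  apply covBy_sup_of_inf_covBy_left
  have h2 : D ⊓ X = lo := by
    have h3 : lo ≤ D ⊓ X := le_inf hD.1.1.1.le hX
    rcases hD.1.1.1.eq_or_eq h3 inf_le_left with h4 | h4
    · exact h4
    · exact absurd (h4 ▸ inf_le_right) hD.1.2
  rw [h2]
  exact hD.1.1.1

theorem sm_self (x : L → ℚ) {D : L} (hD : D ∈ dset lo K M) : sm lo K M x D = x D := by
  classical
  unfold sm
  have h1 : univ.filter (fun D' => D' ∈ dset lo K M ∧ D' ≤ D) = {D} := by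
    ext D'
    simp only [mem_filter, mem_univ, true_and, mem_singleton]
    constructor
    · rintro ⟨h2, h3⟩
      rcases hD.1.eq_or_eq h2.1.le h3 with h4 | h4
      · exact absurd h4 h2.1.lt.ne'
      · exact h4
    · rintro rfl
      exact ⟨hD, le_rfl⟩
  rw [h1, sum_singleton]

theorem sm_le_K (x : L → ℚ) {X : L} (hX : X ≤ K) : sm lo K M x X = 0 := by
  classical
  unfold sm
  apply sum_eq_zero
  intro D hD
  simp only [mem_filter, mem_univ, true_and] at hD
  exact absurd (hD.2.trans hX) hD.1.2.2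

end conf

section indep

variable {L : Type} [Lattice L] [BoundedOrder L] [IsModularLattice L] [Fintype L]
  {lo hi K M W V : L}

open Classical in
theorem indep (hs : Sep L) (h : Conf lo hi K M W V) (x : L → ℚ)
    (hx : ∀ H ∈ hset hi W V, ∑ D ∈ univ.filter (fun D => D ∈ dset lo K M ∧ ¬ D ≤ H), x D = 0) :
    ∀ D ∈ dset lo K M, x D = 0 := by
  have hA : ∀ G, lo ≤ G → G ⋖ M → ¬ V ⊓ M ≤ G → sm lo K M x M - sm lo K M x G = 0 := by
    intro G h1 h2 h3
    rw [sm_sub x h2.le, ← hx _ (h.mem_hset h1 h2 h3)]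
    apply sum_congr _ (fun _ _ => rfl)
    ext D
    simp only [mem_filter, mem_univ, true_and]
    constructor
    · rintro ⟨⟨h4, h5⟩, h6⟩
      exact ⟨h4, fun hle => h5 ((h.le_iff h1 h2.le h6).1 hle)⟩
    · rintro ⟨h4, h5⟩
      exact ⟨⟨h4, fun hle => h5 (hle.trans le_sup_left)⟩, h4.2.1⟩
  have hT : sm lo K M x M = 0 := by
    have h1 := hA K h.lo_le_K h.km h.not_e_le_K
    rw [sm_le_K x le_rfl] at h1
    linarith
  have hA' : ∀ G, lo ≤ G → G ⋖ M → ¬ V ⊓ M ≤ G → sm lo K M x G = 0 := by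
    intro G h1 h2 h3
    have := hA G h1 h2 h3
    linarith
  have hB : ∀ G, lo ≤ G → G ⋖ M → V ⊓ M ≤ G → sm lo K M x G = 0 := by
    intro G h1 h2 h3
    have hGK : G ≠ K := fun he => h.not_e_le_K (he ▸ h3)
    have hsup : G ⊔ K = M := by
      rcases h2.eq_or_eq (le_sup_left : G ≤ G ⊔ K) (sup_le h2.le h.km.le) with h4 | h4
      · exfalso
        have h5 : K ≤ G := h4 ▸ le_sup_right
        rcases h.km.eq_or_eq h5 h2.le with h6 | h6
        · exact hGK h6
        · exact h2.lt.ne h6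
      · exact h4
    have hc1 : G ⊓ K ⋖ K := inf_covBy_of_covBy_sup_left (hsup ▸ h2)
    have hc2 : G ⊓ K ⋖ G := inf_covBy_of_covBy_sup_right (hsup ▸ h.km)
    have hloK : lo ≤ G ⊓ K := le_inf h1 h.lo_le_K
    have h4 := cov_sum (K := K) x hloK ((inf_le_right).trans h.km.le)
    rw [sm_le_K x (inf_le_right : G ⊓ K ≤ K), hT] at h4
    have h5 : ∀ Y ∈ univ.filter (fun Y => G ⊓ K ⋖ Y ∧ Y ≤ M), Y ≠ G →
        sm lo K M x Y - 0 = 0 := by
      intro Y hY hYG
      simp only [mem_filter, mem_univ, true_and] at hY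
      rw [sub_zero]
      have hYM : Y ⋖ M := by
        by_cases hYK : Y = K
        · rw [hYK]; exact h.km
        · have h6 : Y ⊓ K = G ⊓ K := by
            rcases hY.1.eq_or_eq (le_inf hY.1.le inf_le_right : G ⊓ K ≤ Y ⊓ K) inf_le_left
              with h7 | h7
            · exact h7
            · exfalso
              have h8 : Y ≤ K := h7 ▸ inf_le_right
              rcases hc1.eq_or_eq hY.1.le h8 with h9 | h9
              · exact hY.1.lt.ne' h9
              · exact hYK h9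
          have h7 : Y ⋖ Y ⊔ K := covBy_sup_of_inf_covBy_right (h6 ▸ hc1)
          have h8 : Y ⊔ K = M := by
            rcases h.km.eq_or_eq (le_sup_right : K ≤ Y ⊔ K) (sup_le hY.2 h.km.le) with h9 | h9
            · exfalso
              have h10 : Y ≤ K := h9 ▸ le_sup_left
              rcases hc1.eq_or_eq hY.1.le h10 with h11 | h11
              · exact hY.1.lt.ne' h11
              · exact hYK h11
            · exact h9
          rwa [h8] at h7
      have hloY : lo ≤ Y := hloK.trans hY.1.le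
      by_cases he : V ⊓ M ≤ Y
      · exfalso
        have h6 : ¬ V ⊓ M ≤ G ⊓ K := fun hle => h.not_e_le_K (hle.trans inf_le_right)
        have h7 : ∀ Z, G ⊓ K ⋖ Z → V ⊓ M ≤ Z → V ⊓ M ⊔ (G ⊓ K) = Z := by
          intro Z hZ hle
          rcases hZ.eq_or_eq (le_sup_right : G ⊓ K ≤ V ⊓ M ⊔ (G ⊓ K)) (sup_le hle hZ.le)
            with h8 | h8
          · exact absurd (h8 ▸ le_sup_left) h6
          · exact h8
        exact hYG ((h7 Y hY.1 he).symm.trans (h7 G hc2 h3))
      · exact hA' Y hloY hYM he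
    rw [sum_eq_single_of_mem G (by simp only [mem_filter, mem_univ, true_and]; exact ⟨hc2, h2.le⟩)
      h5] at h4
    linarith
  have hC : ∀ X, lo ≤ X → X < M → sm lo K M x X = 0 := by
    intro X
    induction X using WellFoundedGT.induction with
    | ind X ih =>
    intro h1 h2
    by_cases hcov : X ⋖ M
    · by_cases he : V ⊓ M ≤ X
      · exact hB X h1 hcov he
      · exact hA' X h1 hcov he
    · have h4 := cov_sum (K := K) x h1 h2.le
      have h5 : ∀ Y ∈ univ.filter (fun Y => X ⋖ Y ∧ Y ≤ M),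
          sm lo K M x Y - sm lo K M x X = - sm lo K M x X := by
        intro Y hY
        simp only [mem_filter, mem_univ, true_and] at hY
        have h6 : Y < M := lt_of_le_of_ne hY.2 (fun he => hcov (he ▸ hY.1))
        rw [ih Y hY.1.lt (h1.trans hY.1.le) h6, zero_sub]
      rw [sum_congr rfl h5, sum_const, hT, nsmul_eq_mul] at h4
      have h6 : 2 ≤ (univ.filter (fun Y => X ⋖ Y ∧ Y ≤ M)).card := by
        obtain ⟨a, ha, haM, haX⟩ := hs X M (not_le_of_gt h2)
        have h7 := cov_atom ha haX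
        have h8 : X ⊔ a < M := lt_of_le_of_ne (sup_le h2.le haM) (fun he => hcov (he ▸ h7))
        obtain ⟨b, hb, hbM, hbX⟩ := hs (X ⊔ a) M (not_le_of_gt h8)
        have h9 := cov_atom hb (fun hle => hbX (hle.trans le_sup_left))
        have h10 : X ⊔ a ≠ X ⊔ b := fun he => hbX (he ▸ le_sup_right)
        have h11 : ({X ⊔ a, X ⊔ b} : Finset L) ⊆ univ.filter (fun Y => X ⋖ Y ∧ Y ≤ M) := by
          intro Y hY
          rw [mem_insert, mem_singleton] at hY
          simp only [mem_filter, mem_univ, true_and]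
          rcases hY with rfl | rfl
          · exact ⟨h7, h8.le⟩
          · exact ⟨h9, sup_le h2.le hbM⟩
        calc 2 = ({X ⊔ a, X ⊔ b} : Finset L).card := (card_pair h10).symm
          _ ≤ _ := card_le_card h11
      have h7 : (2 : ℚ) ≤ ((univ.filter (fun Y => X ⋖ Y ∧ Y ≤ M)).card : ℚ) := by
        exact_mod_cast h6
      have h8 : (((univ.filter (fun Y => X ⋖ Y ∧ Y ≤ M)).card : ℚ) - 1) * sm lo K M x X = 0 := by
        linarith
      rcases mul_eq_zero.1 h8 with h9 | h9
      · linarith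
      · exact h9
  intro D hD
  rw [← sm_self x hD]
  rcases eq_or_lt_of_le hD.2.1 with h1 | h1
  · rw [h1]; exact hT
  · exact hC D hD.1.le h1

open Classical in
theorem matching (hs : Sep L) (h : Conf lo hi K M W V) :
    ∃ f : dset lo K M → hset hi W V, Function.Injective f ∧ ∀ D : dset lo K M, ¬ (D : L) ≤ (f D : L) := by
  apply (Fintype.all_card_le_filter_rel_iff_exists_injective
    (fun (D : dset lo K M) (H : hset hi W V) => ¬ (D : L) ≤ (H : L))).1
  intro A
  let N : Finset (hset hi W V) := {H | ∃ D ∈ A, ¬ (D : L) ≤ (H : L)}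
  change A.card ≤ N.card
  let v : A → (N → ℚ) := fun D H => if ((D : dset lo K M) : L) ≤ ((H : hset hi W V) : L) then 0 else 1
  have hv : LinearIndependent ℚ v := by
    rw [Fintype.linearIndependent_iff]
    intro g hg D0
    let x : L → ℚ := fun D => if hD : D ∈ dset lo K M then
      (if hA : (⟨D, hD⟩ : dset lo K M) ∈ A then g ⟨⟨D, hD⟩, hA⟩ else 0) else 0
    have hx : ∀ D : A, x ((D : dset lo K M) : L) = g D := by
      intro D
      have h1 : ((D : dset lo K M) : L) ∈ dset lo K M := (D : dset lo K M).2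
      have h2 : (⟨((D : dset lo K M) : L), h1⟩ : dset lo K M) ∈ A := D.2
      simp only [x, dif_pos h1, dif_pos h2]
    have hx0 : ∀ D, (∀ D' : A, ((D' : dset lo K M) : L) ≠ D) → x D = 0 := by
      intro D hD
      by_cases h1 : D ∈ dset lo K M
      · by_cases h2 : (⟨D, h1⟩ : dset lo K M) ∈ A
        · exact absurd rfl (hD ⟨⟨D, h1⟩, h2⟩)
        · simp only [x, dif_pos h1, dif_neg h2]
      · simp only [x, dif_neg h1]
    rw [← hx D0]
    refine indep hs h x ?_ _ (D0 : dset lo K M).2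
    intro H hH
    have hsum : ∑ D ∈ univ.filter (fun D => D ∈ dset lo K M ∧ ¬ D ≤ H), x D =
        ∑ D : A, if ((D : dset lo K M) : L) ≤ H then 0 else g D := by
      have e1 : ∑ D : A, (if ((D : dset lo K M) : L) ≤ H then 0 else g D) =
          ∑ D ∈ univ.filter (fun D : A => ¬ ((D : dset lo K M) : L) ≤ H),
            x ((D : dset lo K M) : L) := by
        rw [sum_filter]
        refine sum_congr rfl fun D _ => ?_
        rw [hx]
        split_ifs <;> simp_all
      rw [e1]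
      symm
      rw [← sum_image (g := fun D : A => ((D : dset lo K M) : L)) (f := x)]
      · apply sum_subset
        · intro D hD
          rw [mem_image] at hD
          obtain ⟨D', hD', rfl⟩ := hD
          simp only [mem_filter, mem_univ, true_and] at hD' ⊢
          exact ⟨(D' : dset lo K M).2, hD'⟩
        · intro D hD hD'
          simp only [mem_filter, mem_univ, true_and] at hD
          apply hx0
          intro D'' he
          apply hD'
          rw [mem_image]
          refine ⟨D'', ?_, he⟩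
          simp only [mem_filter, mem_univ, true_and]
          rw [he]
          exact hD.2
      · intro D _ D' _ he
        exact Subtype.ext (Subtype.ext he)
    rw [hsum]
    by_cases hN : (⟨H, hH⟩ : hset hi W V) ∈ N
    · have h1 := congrFun hg ⟨⟨H, hH⟩, hN⟩
      rw [Finset.sum_apply] at h1
      simp only [Pi.smul_apply, smul_eq_mul, Pi.zero_apply, v] at h1
      refine Eq.trans (sum_congr rfl fun D _ => ?_) h1
      split_ifs <;> simp
    · apply sum_eq_zero
      intro D _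
      rw [if_pos]
      by_contra hc
      apply hN
      simp only [N, mem_filter, mem_univ, true_and]
      exact ⟨_, D.2, hc⟩
  have h1 := hv.fintype_card_le_finrank
  rw [Module.finrank_fintype_fun_eq_card, Fintype.card_coe, Fintype.card_coe] at h1
  exact h1

theorem exists_matching (hs : Sep L) (h : Conf lo hi K M W V) :
    ∃ f : dset lo K M ≃ hset hi W V, ∀ D : dset lo K M, ¬ (D : L) ≤ (f D : L) := by
  classical
  obtain ⟨f, hf, hf2⟩ := matching hs h
  obtain ⟨g, hg, -⟩ := matching (L := Lᵒᵈ) (sep_dual hs) h.dual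
  have h1 : Nat.card (hset hi W V) ≤ Nat.card (dset lo K M) := by
    have hfin : Finite (dset lo K M) := inferInstance
    let g' : hset hi W V → dset lo K M := fun H =>
      ⟨OrderDual.ofDual (g ⟨OrderDual.toDual H.1, H.2.1.toDual, H.2.2.1, H.2.2.2⟩).1,
        (g ⟨OrderDual.toDual H.1, H.2.1.toDual, H.2.2.1, H.2.2.2⟩).2.1.ofDual,
        (g ⟨OrderDual.toDual H.1, H.2.1.toDual, H.2.2.1, H.2.2.2⟩).2.2.1,
        (g ⟨OrderDual.toDual H.1, H.2.1.toDual, H.2.2.1, H.2.2.2⟩).2.2.2⟩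
    refine Nat.card_le_card_of_injective g' ?_
    intro H H' he
    have e1 := congrArg Subtype.val he
    have e2 := hg (Subtype.ext e1)
    have e3 := congrArg Subtype.val e2
    exact Subtype.ext e3
  have hb : Function.Bijective f := by
    refine ⟨hf, ?_⟩
    have hfin : Finite (hset hi W V) := inferInstance
    have h2 : Nat.card (dset lo K M) = Nat.card (hset hi W V) :=
      le_antisymm (Nat.card_le_card_of_injective f hf) h1
    exact ((Nat.bijective_iff_injective_and_card f).2 ⟨hf, h2⟩).2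
  exact ⟨Equiv.ofBijective f hb, hf2⟩

end indep

end Pool.Agent.Helper72.MB
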