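import Pool.Agent.Helper28.BPack.Main
import Pool.Agent.Helper72.MB.Match

/-!
# Symmetric Boolean packings of finite modular geometric lattices
-/

set_option autoImplicit false
set_option linter.unusedSectionVars false

namespace Pool.Agent.Helper72.MB

open Pool.Agent.Helper28.BPack

variable {L : Type} [Lattice L] [BoundedOrder L] [IsModularLattice L] [Fintype L]

/-- values of a family of pieces -/
def vals {ι : Type} (p : ι → Pc L) : (Σ i, Finset (Fin (p i).n)) → L := fun q => (p q.1).val q.2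

/-- a set is a disjoint union of pieces, symmetric about half the number `N` -/
def PS (S : Set L) (N : ℕ) : Prop :=
  ∃ (ι : Type) (_ : Finite ι) (p : ι → Pc L), (∀ i, (p i).Good) ∧
    (∀ i, 2 * rk (p i).x + (p i).n = N) ∧ Function.Injective (vals p) ∧ Set.range (vals p) = S

theorem PS.empty (N : ℕ) : PS (∅ : Set L) N :=
  ⟨Empty, inferInstance, fun i => i.elim, fun i => i.elim, fun i => i.elim,
    fun q => q.1.elim, by ext x; simp⟩

theorem PS.one (z : L) {N : ℕ} (hN : 2 * rk z = N) : PS ({z} : Set L) N := by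
  refine ⟨Unit, inferInstance, fun _ => single z, fun _ => single_good z, fun _ => ?_, ?_, ?_⟩
  · change 2 * rk z + 0 = N
    omega
  · rintro ⟨i, B⟩ ⟨j, C⟩ _
    have hB : B = ∅ := by ext k; exact k.elim0
    have hC : C = ∅ := by ext k; exact k.elim0
    rw [hB, hC]
  · ext x
    simp only [Set.mem_range, Set.mem_singleton_iff]
    constructor
    · rintro ⟨⟨i, B⟩, rfl⟩
      exact single_val z B
    · rintro rfl
      exact ⟨⟨(), ∅⟩, single_val x ∅⟩

theorem PS.iUnion {κ : Type} [Finite κ] {S : κ → Set L} {N : ℕ} (h : ∀ k, PS (S k) N)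
    (hd : ∀ k l x, x ∈ S k → x ∈ S l → k = l) : PS (⋃ k, S k) N := by
  choose ι hι p hg hN hi hr using h
  have hfin : Finite (Σ k, ι k) := inferInstance
  refine ⟨Σ k, ι k, hfin, fun q => p q.1 q.2, fun q => hg _ _, fun q => hN _ _, ?_, ?_⟩
  · rintro ⟨⟨k, i⟩, B⟩ ⟨⟨l, j⟩, C⟩ he
    have h1 : (p k i).val B ∈ S k := by
      rw [← hr k]; exact ⟨⟨i, B⟩, rfl⟩
    have h2 : (p l j).val C ∈ S l := by
      rw [← hr l]; exact ⟨⟨j, C⟩, rfl⟩
    have h3 : (p k i).val B = (p l j).val C := he
    have h4 : k = l := hd k l _ h1 (h3 ▸ h2)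
    subst h4
    have h5 : (⟨i, B⟩ : Σ i, Finset (Fin (p k i).n)) = ⟨j, C⟩ := hi k h3
    obtain ⟨h6, h7⟩ := Sigma.mk.inj_iff.1 h5
    subst h6
    rw [eq_of_heq h7]
  · ext x
    simp only [Set.mem_range, Set.mem_iUnion]
    constructor
    · rintro ⟨⟨⟨k, i⟩, B⟩, rfl⟩
      refine ⟨k, ?_⟩
      rw [← hr k]
      exact ⟨⟨i, B⟩, rfl⟩
    · rintro ⟨k, hk⟩
      rw [← hr k] at hk
      obtain ⟨⟨i, B⟩, rfl⟩ := hk
      exact ⟨⟨⟨k, i⟩, B⟩, rfl⟩

theorem PS.union {S T : Set L} {N : ℕ} (hS : PS S N) (hT : PS T N)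
    (hd : ∀ x, x ∈ S → x ∉ T) : PS (S ∪ T) N := by
  have h : PS (⋃ b : Bool, if b then S else T) N := by
    apply PS.iUnion
    · intro b
      cases b
      · simpa using hT
      · simpa using hS
    · intro k l x hk hl
      cases k <;> cases l
      · rfl
      · simp only [Bool.false_eq_true, if_false, if_true] at hk hl
        exact absurd hk (hd x hl)
      · simp only [Bool.false_eq_true, if_false, if_true] at hk hl
        exact absurd hl (hd x hk)
      · rfl
  convert h using 1
  ext x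
  simp only [Set.mem_union, Set.mem_iUnion, Bool.exists_bool, if_true]
  simp only [Bool.false_eq_true, if_false]
  tauto

theorem inf_sup_atom {d H U : L} (hd : IsAtom d) (hdH : ¬ d ≤ H) (hU : U ≤ H) :
    (U ⊔ d) ⊓ H = U := by
  rw [sup_inf_assoc_of_le d hU]
  have h1 : d ⊓ H = ⊥ := by
    rcases hd.le_iff.1 (inf_le_left : d ⊓ H ≤ d) with h2 | h2
    · exact h2
    · exact absurd (h2 ▸ inf_le_right) hdH
  rw [h1, sup_bot_eq]

theorem PS.double {S : Set L} {N : ℕ} (h : PS S N) {d H : L} (hd : IsAtom d) (hdH : ¬ d ≤ H)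
    (hSH : ∀ U ∈ S, U ≤ H) : PS (S ∪ (fun U => U ⊔ d) '' S) (N + 1) := by
  classical
  obtain ⟨ι, hι, p, hg, hN, hi, hr⟩ := h
  have hmem : ∀ i B, (p i).val B ∈ S := by
    intro i B
    rw [← hr]
    exact ⟨⟨i, B⟩, rfl⟩
  have hle : ∀ i B, (p i).val B ≤ H := fun i B => hSH _ (hmem i B)
  have hval : ∀ i (B : Finset (Fin ((p i).n + 1))), (lft d (p i) (p i).x).val B =
      (p i).val (tl B) ⊔ (if 0 ∈ B then d else ⊥) := by
    intro i B
    rw [lft_val, Pc.val, sup_assoc, sup_comm (if 0 ∈ B then d else ⊥)]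
  have hinf : ∀ i (B : Finset (Fin ((p i).n + 1))), (lft d (p i) (p i).x).val B ⊓ H =
      (p i).val (tl B) := by
    intro i B
    rw [hval]
    split_ifs
    · exact inf_sup_atom hd hdH (hle i _)
    · rw [sup_bot_eq]
      exact inf_eq_left.2 (hle i _)
  have hdle : ∀ i (B : Finset (Fin ((p i).n + 1))), d ≤ (lft d (p i) (p i).x).val B ↔ 0 ∈ B := by
    intro i B
    constructor
    · intro h1
      by_contra h0
      rw [hval, if_neg h0, sup_bot_eq] at h1
      exact hdH (h1.trans (hle i _))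
    · intro h0
      rw [hval, if_pos h0]
      exact le_sup_right
  refine ⟨ι, hι, fun i => lft d (p i) (p i).x, ?_, ?_, ?_, ?_⟩
  · intro i
    constructor
    · intro j
      refine Fin.cases ?_ (fun j => ?_) j
      · exact hd
      · exact (hg i).1 j
    · intro B j
      refine Fin.cases ?_ (fun j => ?_) j
      · intro h0 h1
        exact h0 ((hdle i B).1 h1)
      · intro hj h1
        have h2 : (p i).a j ≤ (lft d (p i) (p i).x).val B := h1
        have h3 : (p i).a j ≤ H := by
          have h4 := (p i).a_le_val (B := {j}) (Finset.mem_singleton_self j)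
          exact h4.trans (hle i _)
        have h4 : (p i).a j ≤ (p i).val (tl B) := by
          rw [← hinf]
          exact le_inf h2 h3
        exact (hg i).2 (tl B) j (fun h => hj (mem_tl.mp h)) h4
  · intro i
    change 2 * rk (p i).x + ((p i).n + 1) = N + 1
    have := hN i
    omega
  · rintro ⟨i, B⟩ ⟨j, C⟩ he
    have h1 : (lft d (p i) (p i).x).val B = (lft d (p j) (p j).x).val C := he
    have h2 : (p i).val (tl B) = (p j).val (tl C) := by
      rw [← hinf, ← hinf, h1]
    have h3 : (⟨i, tl B⟩ : Σ i, Finset (Fin (p i).n)) = ⟨j, tl C⟩ := hi h2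
    have h0 : 0 ∈ B ↔ 0 ∈ C := by
      rw [← hdle i B, ← hdle j C, h1]
    obtain ⟨h4, h5⟩ := Sigma.mk.inj_iff.1 h3
    subst h4
    have h6 : tl B = tl C := eq_of_heq h5
    have h7 : B = C := by
      ext k
      refine Fin.cases ?_ (fun k => ?_) k
      · exact h0
      · rw [← mem_tl, ← mem_tl, h6]
    rw [h7]
  · ext x
    simp only [Set.mem_range, Set.mem_union, Set.mem_image]
    constructor
    · rintro ⟨⟨i, B⟩, rfl⟩
      change (lft d (p i) (p i).x).val B ∈ S ∨ ∃ U ∈ S, U ⊔ d = (lft d (p i) (p i).x).val B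
      rw [hval]
      split_ifs
      · exact Or.inr ⟨_, hmem i _, rfl⟩
      · rw [sup_bot_eq]
        exact Or.inl (hmem i _)
    · have htl : ∀ {n : ℕ} (B : Finset (Fin n)), tl (B.map (Fin.succEmb n)) = B := by
        intro n B
        ext k
        rw [mem_tl]
        simp
      have htl' : ∀ {n : ℕ} (B : Finset (Fin n)), tl (insert 0 (B.map (Fin.succEmb n))) = B := by
        intro n B
        ext k
        rw [mem_tl]
        simp
      rintro (hx | ⟨U, hU, rfl⟩)
      · rw [← hr] at hx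
        obtain ⟨⟨i, B⟩, rfl⟩ := hx
        refine ⟨⟨i, B.map (Fin.succEmb _)⟩, ?_⟩
        change (lft d (p i) (p i).x).val _ = (p i).val B
        rw [hval, htl, if_neg, sup_bot_eq]
        simp
      · rw [← hr] at hU
        obtain ⟨⟨i, B⟩, rfl⟩ := hU
        refine ⟨⟨i, insert 0 (B.map (Fin.succEmb _))⟩, ?_⟩
        change (lft d (p i) (p i).x).val _ = (p i).val B ⊔ d
        rw [hval, htl', if_pos (Finset.mem_insert_self _ _)]

/-- one class of the partition -/
def cl (M W D H : L) : Set L := {U | U ⊓ M = D ∧ U ⊔ W = H}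

theorem cl_restrict {lo hi K M W V D H : L} (h : Conf lo hi K M W V) (hD : lo ≤ D) (hDM : D ≤ M)
    (hH : H ≤ hi) (hWH : W ≤ H) (hDH : D ≤ H) :
    cl M W D H = {U | U ⊓ (M ⊓ H) = D ∧ U ⊔ (W ⊔ D) = H} ∧
      (M ⊓ H) ⊓ (W ⊔ D) = D ∧ (M ⊓ H) ⊔ (W ⊔ D) = H := by
  refine ⟨?_, ?_, ?_⟩
  · ext U
    simp only [cl, Set.mem_ofPred_eq]
    constructor
    · rintro ⟨h1, h2⟩
      have h3 : U ≤ H := h2 ▸ le_sup_left
      have h4 : D ≤ U := h1 ▸ inf_le_left
      refine ⟨?_, ?_⟩
      · rw [← inf_assoc, h1]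
        exact inf_eq_left.2 hDH
      · rw [← sup_assoc, h2]
        exact sup_eq_left.2 hDH
    · rintro ⟨h1, h2⟩
      have h3 : U ≤ H := h2 ▸ le_sup_left
      have h4 : D ≤ U := h1 ▸ inf_le_left
      refine ⟨?_, ?_⟩
      · rw [← h1, ← inf_assoc]
        symm
        exact inf_eq_left.2 (inf_le_left.trans h3)
      · rw [← h2, ← sup_assoc]
        symm
        exact sup_eq_left.2 (h4.trans le_sup_left)
  · have h1 : W ⊔ D ≤ H := sup_le hWH hDH
    rw [inf_assoc, inf_eq_right.2 h1, inf_comm, sup_comm, sup_inf_assoc_of_le W hDM, inf_comm W M,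
      h.mw1]
    exact sup_eq_left.2 hD
  · rw [sup_comm W D, ← sup_assoc, sup_eq_left.2 (le_inf hDM hDH), inf_comm,
      inf_sup_assoc_of_le M hWH, h.mw2]
    exact inf_eq_left.2 hH

theorem main (hs : Sep L) : ∀ (n : ℕ) (lo hi K V : L), rk hi + rk V ≤ n + rk lo →
    K ⊓ V = lo → K ⊔ V = hi → PS {U : L | U ⊓ K = lo ∧ U ⊔ V = hi} (rk lo + rk hi) := by
  classical
  intro n
  induction n with
  | zero =>
    intro lo hi K V hr h1 h2
    have hlV : lo ≤ V := h1 ▸ inf_le_right
    have hVh : V ≤ hi := h2 ▸ le_sup_right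
    have a1 := rk_mono hlV
    have a2 := rk_mono hVh
    have hlh : lo = hi := eq_of_le_of_rk (hlV.trans hVh) (by omega)
    have hV : V = lo := (le_antisymm hlV (by rw [hlh]; exact hVh)).symm
    have : {U : L | U ⊓ K = lo ∧ U ⊔ V = hi} = {lo} := by
      ext U
      simp only [Set.mem_ofPred_eq, Set.mem_singleton_iff]
      constructor
      · rintro ⟨h3, h4⟩
        apply le_antisymm
        · rw [hlh, ← h4]; exact le_sup_left
        · rw [← h3]; exact inf_le_left
      · rintro rfl
        refine ⟨inf_eq_left.2 (h1 ▸ inf_le_left), ?_⟩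
        rw [hV, sup_idem, hlh]
    rw [this]
    exact PS.one lo (by rw [← hlh]; omega)
  | succ n ih =>
    intro lo hi K V hr hkv1 hkv2
    have hlV : lo ≤ V := hkv1 ▸ inf_le_right
    have hlK : lo ≤ K := hkv1 ▸ inf_le_left
    have hVh : V ≤ hi := hkv2 ▸ le_sup_right
    rcases eq_or_lt_of_le hlV with hV | hV
    · -- the complement is everything
      subst hV
      have hK : K = hi := by rw [← hkv2]; exact (sup_eq_left.2 hlK).symm
      by_cases hlh : lo = hi
      · have : {U : L | U ⊓ K = lo ∧ U ⊔ lo = hi} = {lo} := by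
          ext U
          simp only [Set.mem_ofPred_eq, Set.mem_singleton_iff]
          constructor
          · rintro ⟨h3, h4⟩
            apply le_antisymm
            · rw [hlh, ← h4]; exact le_sup_left
            · rw [← h3]; exact inf_le_left
          · rintro rfl
            exact ⟨inf_eq_left.2 hlK, by rw [sup_idem, hlh]⟩
        rw [this]
        exact PS.one lo (by rw [← hlh]; omega)
      · have : {U : L | U ⊓ K = lo ∧ U ⊔ lo = hi} = ∅ := by
          ext U
          simp only [Set.mem_ofPred_eq, Set.mem_empty_iff_false, iff_false]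
          rintro ⟨h3, h4⟩
          have h5 : lo ≤ U := h3 ▸ inf_le_left
          rw [sup_eq_left.2 h5] at h4
          rw [h4, hK, inf_idem] at h3
          exact hlh h3.symm
        rw [this]
        exact PS.empty _
    · -- a hyperplane of `V` and a point off it
      have hfin : ({c : L | lo ≤ c ∧ c < V}).Finite := Set.toFinite _
      obtain ⟨W, hW⟩ := hfin.exists_maximal ⟨lo, le_rfl, hV⟩
      have hW1 : lo ≤ W ∧ W < V := hW.1
      have hWV : W ⋖ V := by
        refine ⟨hW1.2, fun c hc1 hc2 => ?_⟩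
        exact absurd (hW.2 (⟨hW1.1.trans hc1.le, hc2⟩ : c ∈ {c : L | lo ≤ c ∧ c < V}) hc1.le)
          (not_le_of_gt hc1)
      obtain ⟨a, ha, haV, haW⟩ := hs W V (not_le_of_gt hW1.2)
      have haK : ¬ a ≤ K := fun hle => haW ((le_inf hle haV).trans (hkv1 ▸ hW1.1))
      have hWa : W ⊔ a = V := by
        rcases hWV.eq_or_eq (le_sup_left : W ≤ W ⊔ a) (sup_le hWV.le haV) with h1 | h1
        · exact absurd (h1 ▸ le_sup_right) haW
        · exact h1
      have hlh : lo ≤ hi := hlV.trans hVh
      obtain ⟨M, hM⟩ : ∃ M, M = K ⊔ a := ⟨_, rfl⟩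
      have hconf : Conf lo hi K M W V := by
        refine ⟨hkv1, hkv2, ?_, ?_, ?_, hWV⟩
        · have h1 : M ⊓ V = lo ⊔ a := by
            rw [hM, sup_comm, sup_inf_assoc_of_le K haV, hkv1, sup_comm]
          have h2 : M ⊓ W = (M ⊓ V) ⊓ W := by
            rw [inf_assoc, inf_eq_right.2 hWV.le]
          rw [h2, h1]
          exact inf_sup_atom ha haW hW1.1
        · rw [hM, sup_assoc, sup_comm a W, hWa, hkv2]
        · rw [hM]; exact cov_atom ha haK
      obtain ⟨f, hf⟩ := exists_matching hs hconf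
      have rV : rk V = rk W + 1 := rk_covBy hWV
      -- the three families
      have hP0 : PS (cl M W lo hi) (rk lo + rk hi) :=
        ih lo hi M W (by omega) hconf.mw1 hconf.mw2
      have hP1 : ∀ D : dset lo K M, PS (cl M W lo (f D) ∪ cl M W D hi) (rk lo + rk hi) := by
        intro D
        obtain ⟨H, hH⟩ : ∃ H, H = (f D : L) := ⟨_, rfl⟩
        have hH1 : H ∈ hset hi W V := hH ▸ (f D).2
        have hDH : ¬ (D : L) ≤ H := hH ▸ hf D
        rw [← hH]
        have rH : rk hi = rk H + 1 := rk_covBy hH1.1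
        have hloH : lo ≤ H := hW1.1.trans hH1.2.1
        obtain ⟨e1, e2, e3⟩ := cl_restrict hconf le_rfl hconf.lo_le_M hH1.1.le hH1.2.1 hloH
        rw [sup_eq_left.2 hW1.1] at e1 e2 e3
        have h1 := ih lo H (M ⊓ H) W (by omega) e2 e3
        rw [← e1] at h1
        obtain ⟨d, hd, hdD, hdlo⟩ := hs lo D (not_le_of_gt D.2.1.lt)
        have hloD : lo ⊔ d = D := by
          rcases D.2.1.eq_or_eq (le_sup_left : lo ≤ lo ⊔ d) (sup_le D.2.1.le hdD) with h2 | h2
          · exact absurd (h2 ▸ le_sup_right) hdlo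
          · exact h2
        have hdH : ¬ d ≤ H := fun hle => hDH (hloD ▸ sup_le hloH hle)
        have hdhi : d ≤ hi := hdD.trans (D.2.2.1.trans hconf.M_le_hi)
        have hHd : H ⊔ d = hi := by
          rcases hH1.1.eq_or_eq (le_sup_left : H ≤ H ⊔ d) (sup_le hH1.1.le hdhi) with h2 | h2
          · exact absurd (h2 ▸ le_sup_right) hdH
          · exact h2
        have h2 := h1.double hd hdH (fun U hU => hU.2 ▸ le_sup_left)
        have h3 : (fun U => U ⊔ d) '' cl M W lo H = cl M W D hi := by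
          ext U'
          simp only [Set.mem_image]
          constructor
          · rintro ⟨U, ⟨hU1, hU2⟩, rfl⟩
            have hloU : lo ≤ U := hU1 ▸ inf_le_left
            have h4 : U ⊔ d = (D : L) ⊔ U := by
              rw [← hloD, sup_comm lo d, sup_assoc, sup_eq_right.2 hloU, sup_comm]
            refine ⟨?_, ?_⟩
            · rw [h4, sup_inf_assoc_of_le U D.2.2.1, hU1]
              exact sup_eq_left.2 D.2.1.le
            · rw [sup_assoc, sup_comm d W, ← sup_assoc, hU2, hHd]
          · rintro ⟨hU1, hU2⟩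
            have hDU : (D : L) ≤ U' := hU1 ▸ inf_le_left
            have hUh : U' ≤ hi := hU2 ▸ le_sup_left
            refine ⟨H ⊓ U', ⟨?_, ?_⟩, ?_⟩
            · rw [inf_assoc, hU1]
              have h4 : lo ≤ H ⊓ D := le_inf hloH D.2.1.le
              rcases D.2.1.eq_or_eq h4 inf_le_right with h5 | h5
              · exact h5
              · exact absurd (h5 ▸ inf_le_left) hDH
            · rw [inf_sup_assoc_of_le U' hH1.2.1, hU2]
              exact inf_eq_left.2 hH1.1.le
            · rw [inf_comm, inf_sup_assoc_of_le H (hdD.trans hDU), hHd]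
              exact inf_eq_left.2 hUh
        rw [h3] at h2
        have h4 : rk lo + rk hi = rk lo + rk H + 1 := by omega
        rw [h4]
        exact h2
      have hP2 : ∀ q : {q : dset lo K M × hset hi W V // (q.1 : L) ≤ (q.2 : L)},
          PS (cl M W q.1.1 q.1.2) (rk lo + rk hi) := by
        rintro ⟨⟨⟨D, hD⟩, ⟨H, hH⟩⟩, hDH⟩
        change D ≤ H at hDH
        change PS (cl M W D H) (rk lo + rk hi)
        have rH : rk hi = rk H + 1 := rk_covBy hH.1
        have rD : rk D = rk lo + 1 := rk_covBy hD.1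
        obtain ⟨e1, e2, e3⟩ := cl_restrict hconf hD.1.le hD.2.1 hH.1.le hH.2.1 hDH
        have hDW : D ⊓ W = lo := by
          apply le_antisymm
          · rw [← hconf.mw1]
            exact inf_le_inf_right _ hD.2.1
          · exact le_inf hD.1.le hW1.1
        have h4 : W ⋖ D ⊔ W := covBy_sup_of_inf_covBy_left (hDW ▸ hD.1)
        have h5 := rk_covBy h4
        rw [sup_comm] at h5
        have h1 := ih D H (M ⊓ H) (W ⊔ D) (by omega) e2 e3
        rw [← e1] at h1
        have h6 : rk lo + rk hi = rk D + rk H := by omega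
        rw [h6]
        exact h1
      -- assembly
      have hPA : PS (⋃ D : dset lo K M, (cl M W lo (f D) ∪ cl M W D hi)) (rk lo + rk hi) := by
        apply PS.iUnion hP1
        rintro D D' x (h1 | h1) (h2 | h2)
        · have h3 : (f D : L) = f D' := h1.2.symm.trans h2.2
          exact f.injective (Subtype.ext h3)
        · exact absurd (h1.1.symm.trans h2.1) D'.2.1.lt.ne
        · exact absurd (h1.1.symm.trans h2.1) D.2.1.lt.ne'
        · exact Subtype.ext (h1.1.symm.trans h2.1)
      have hPB : PS (⋃ q : {q : dset lo K M × hset hi W V // (q.1 : L) ≤ (q.2 : L)},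
          cl M W q.1.1 q.1.2) (rk lo + rk hi) := by
        apply PS.iUnion hP2
        rintro ⟨⟨D, H⟩, hq⟩ ⟨⟨D', H'⟩, hq'⟩ x h1 h2
        have h3 : D = D' := Subtype.ext (h1.1.symm.trans h2.1)
        have h4 : H = H' := Subtype.ext (h1.2.symm.trans h2.2)
        subst h3 h4
        rfl
      have hall := (hP0.union hPA (by
        rintro x h1 h2
        rw [Set.mem_iUnion] at h2
        obtain ⟨D, h2 | h2⟩ := h2
        · exact (f D).2.1.lt.ne (h2.2.symm.trans h1.2)
        · exact D.2.1.lt.ne' (h2.1.symm.trans h1.1))).union hPB (by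
        rintro x h1 h2
        rw [Set.mem_iUnion] at h2
        obtain ⟨⟨⟨D, H⟩, hq⟩, h2⟩ := h2
        have hD1 : x ⊓ M = D := h2.1
        have hH1 : x ⊔ W = H := h2.2
        rcases h1 with h1 | h1
        · exact D.2.1.lt.ne' (hD1.symm.trans h1.1)
        · rw [Set.mem_iUnion] at h1
          obtain ⟨D', h1 | h1⟩ := h1
          · exact D.2.1.lt.ne' (hD1.symm.trans h1.1)
          · exact H.2.1.lt.ne (hH1.symm.trans h1.2))
      convert hall using 1
      have hcK : ∀ D ∈ dset lo K M, D ⊓ K = lo := by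
        intro D hD
        rcases hD.1.eq_or_eq (le_inf hD.1.le hlK : lo ≤ D ⊓ K) inf_le_left with h1 | h1
        · exact h1
        · exact absurd (h1 ▸ inf_le_right) hD.2.2
      have hcV : ∀ H ∈ hset hi W V, H ⊔ V = hi := by
        intro H hH
        rcases hH.1.eq_or_eq (le_sup_left : H ≤ H ⊔ V) (sup_le hH.1.le hVh) with h1 | h1
        · exact absurd (h1 ▸ le_sup_right) hH.2.2
        · exact h1
      have hback : ∀ D H U, D ⊓ K = lo → H ⊔ V = hi → U ∈ cl M W D H →
          U ⊓ K = lo ∧ U ⊔ V = hi := by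
        rintro D H U h1 h2 ⟨h3, h4⟩
        refine ⟨?_, ?_⟩
        · rw [← h1, ← h3, inf_assoc, inf_eq_right.2 hconf.km.le]
        · rw [← h2, ← h4, sup_assoc, sup_eq_right.2 hWV.le]
      ext U
      simp only [Set.mem_ofPred_eq, Set.mem_union, Set.mem_iUnion]
      constructor
      · rintro ⟨hU1, hU2⟩
        have c1 : U ⊓ M = lo ∨ U ⊓ M ∈ dset lo K M := by
          by_cases hle : U ⊓ M ≤ K
          · left
            apply le_antisymm
            · rw [← hU1]
              exact le_inf inf_le_left hle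
            · exact le_inf (hU1 ▸ inf_le_left) hconf.lo_le_M
          · right
            refine ⟨?_, inf_le_right, hle⟩
            have h1 : K ⊔ U ⊓ M = M := by
              rcases hconf.km.eq_or_eq (le_sup_left : K ≤ K ⊔ U ⊓ M)
                (sup_le hconf.km.le inf_le_right) with h2 | h2
              · exact absurd (h2 ▸ le_sup_right) hle
              · exact h2
            have h2 : K ⊓ (U ⊓ M) ⋖ U ⊓ M := inf_covBy_of_covBy_sup_left (h1.symm ▸ hconf.km)
            have h3 : K ⊓ (U ⊓ M) = lo := by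
              rw [← inf_assoc, inf_comm K U, hU1]
              exact inf_eq_left.2 hconf.lo_le_M
            rwa [h3] at h2
        have c2 : U ⊔ W = hi ∨ U ⊔ W ∈ hset hi W V := by
          by_cases hle : V ≤ U ⊔ W
          · left
            apply le_antisymm
            · exact sup_le (hU2 ▸ le_sup_left) hconf.W_le_hi
            · rw [← hU2]
              exact sup_le le_sup_left hle
          · right
            refine ⟨?_, le_sup_right, hle⟩
            have h1 : (U ⊔ W) ⊓ V = W := by
              rcases hWV.eq_or_eq (le_inf le_sup_right hWV.le : W ≤ (U ⊔ W) ⊓ V) inf_le_right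
                with h2 | h2
              · exact h2
              · exact absurd (h2 ▸ inf_le_left) hle
            have h2 : U ⊔ W ⋖ U ⊔ W ⊔ V := covBy_sup_of_inf_covBy_right (h1.symm ▸ hWV)
            rwa [sup_assoc, sup_eq_right.2 hWV.le, hU2] at h2
        rcases c1 with c1 | c1 <;> rcases c2 with c2 | c2
        · exact Or.inl (Or.inl ⟨c1, c2⟩)
        · refine Or.inl (Or.inr ⟨f.symm ⟨U ⊔ W, c2⟩, Or.inl ⟨c1, ?_⟩⟩)
          rw [Equiv.apply_symm_apply]
        · exact Or.inl (Or.inr ⟨⟨U ⊓ M, c1⟩, Or.inr ⟨rfl, c2⟩⟩)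
        · exact Or.inr ⟨⟨⟨⟨U ⊓ M, c1⟩, ⟨U ⊔ W, c2⟩⟩, inf_le_left.trans le_sup_left⟩, rfl, rfl⟩
      · rintro ((h1 | ⟨D, h1 | h1⟩) | ⟨⟨⟨D, H⟩, hq⟩, h1⟩)
        · exact hback lo hi U (inf_eq_left.2 hlK) (sup_eq_left.2 hVh) h1
        · exact hback lo (f D) U (inf_eq_left.2 hlK) (hcV _ (f D).2) h1
        · exact hback D hi U (hcK _ D.2) (sup_eq_left.2 hVh) h1
        · exact hback D H U (hcK _ D.2) (hcV _ H.2) h1

theorem ps_univ (hs : Sep L) : PS (Set.univ : Set L) (rk (⊤ : L)) := by
  have h := main hs (rk (⊤ : L) + rk (⊤ : L)) ⊥ ⊤ ⊥ ⊤ (by omega) (by simp) (by simp)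
  have h1 : {U : L | U ⊓ ⊥ = ⊥ ∧ U ⊔ ⊤ = ⊤} = Set.univ := by
    ext U; simp
  rw [h1, rk_bot, zero_add] at h
  exact h

end Pool.Agent.Helper72.MB
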